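import Pool.Agent.Q269.SX.StR
import Pool.Agent.Q280.GL.KSE

/-!
# Project SX (helper269), job KSN: the decomposition of the system over the larger field
(adapted from `Pool/Agent/Q280/GL/KSE.lean`)
-/

set_option autoImplicit false
set_option linter.all false

open scoped Classical
open Finset Polynomial

namespace Pool.Agent.Q121.SX

open Pool.Agent.Q269.GR (F2 cf hv own Dn pr ph fp Om IsSg)
open Pool.Agent.Q269.GJ (W0 lap eqn Kn KD xb am Ip)
open Pool.Agent.Q269.SX
open Pool.Agent.Y164.PS (L L_mul_left L_neg_left)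
open Pool.Agent.Q202.GR (mem_pr)
open Pool.Agent.Q16.GR (ph_irr ph_dvd ph_inj ph_monic ph_alg ph_finrank)
open Pool.Agent.Q280.GL (pm pm_val pm_iter pm_fin L_ph cast_F two_F)

section

variable {k k' : Type} [Field k] [Fintype k] [Field k'] [Fintype k'] [Algebra k k']
variable {F : Type} [Field F] [Algebra F2 F] {n : ℕ}

theorem mem_EgN {D : k[X]} (hD : D ≠ 0) (ξ : F) (w : Ip (D.map (algebraMap k k')) → W0 n F) :
    w ∈ EgN k n ξ (D.map (algebraMap k k')) ↔ ∀ T, w (pm hD T) = ξ • w T := by
  constructor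
  · intro h T
    exact h T (pm hD T) rfl
  · intro h T T' hT
    have : T' = pm hD T := Subtype.ext hT
    rw [this]
    exact h T

theorem EgN_iter {D : k[X]} (hD : D ≠ 0) {ξ : F} {w : Ip (D.map (algebraMap k k')) → W0 n F}
    (h : ∀ T, w (pm hD T) = ξ • w T) (c : ℕ) (T : Ip (D.map (algebraMap k k'))) :
    w ((pm hD)^[c] T) = ξ ^ c • w T := by
  induction c with
  | zero => rw [Function.iterate_zero, id, pow_zero, one_smul]
  | succ c ih => rw [Function.iterate_succ_apply', h, ih, smul_smul, pow_succ']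

theorem mem_NmN {D : k[X]} (hD : D ≠ 0) (w : Ip (D.map (algebraMap k k')) → W0 n F) :
    w ∈ NmN F k n (D.map (algebraMap k k')) ↔
      ∀ T, ∑ c ∈ range (Module.finrank k k'), w ((pm hD)^[c] T) = 0 := by
  constructor
  · intro h T
    exact h (fun c => (pm hD)^[c] T) fun c => by rw [Function.iterate_succ_apply']; rfl
  · intro h f hf
    have h1 : ∀ c, f c = (pm hD)^[c] (f 0) := by
      intro c
      induction c with
      | zero => rfl
      | succ c ih =>
        rw [Function.iterate_succ_apply', ← ih]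
        exact Subtype.ext (hf c)
    rw [sum_congr rfl fun c _ => by rw [h1 c]]
    exact h (f 0)

/-- the left side of the equation at `T` -/
noncomputable def eqKN (a : Fin n → k'[X]) (D : k'[X]) (w : Ip D → W0 n F) (T : Ip D) : Fin n → F :=
  eqn (fun i j : Ip D => cf (L j.1 i.1))
    (fun i => cf (∑ j : Ip D, if j = i then 0 else L j.1 i.1)) (fun i => xb a i.1) w T

theorem mem_KSn (a : Fin n → k'[X]) (D : k'[X]) (w : Ip D → W0 n F) :
    w ∈ KSn F a D ↔ ∀ T, eqKN a D w T = 0 := Iff.rfl

theorem eqn_reindexN {J : Type} [Fintype J] (π : J ≃ J) (M : J → J → F) (dd : J → F)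
    (x : J → Fin n → Fin n → F2) (w : J → W0 n F) (i : J) (hM : ∀ j, M (π i) (π j) = M i j)
    (hd : dd (π i) = dd i) (hx : x (π i) = x i) :
    eqn M dd x (fun j => w (π j)) i = eqn M dd x w (π i) := by
  unfold eqn
  rw [hd, hx]
  congr 1
  congr 1
  refine Eq.trans ?_ (Equiv.sum_comp π (fun j => (if j = π i then (0 : F) else M (π i) j) • (w j).1))
  refine sum_congr rfl fun j _ => ?_
  by_cases h : j = i
  · rw [if_pos h, if_pos (congrArg π h)]
  · rw [if_neg h, if_neg (fun h' => h (π.injective h')), hM]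

theorem xb_pm (h : Pool.Agent.Q269.GR.S_PAS) (hk : ringChar k ≠ 2) (a : Fin n → k[X]) {D : k[X]}
    (hD : D ≠ 0) (T : Ip (D.map (algebraMap k k'))) :
    xb (am k' a) (pm hD T).1 = xb (am k' a) T.1 := by
  obtain ⟨hm, hi⟩ := mem_pr T.2
  funext l l'
  show L (am k' a l - am k' a l') (pm hD T).1 = L (am k' a l - am k' a l') T.1
  have : am k' a l - am k' a l' = (a l - a l').map (algebraMap k k') := by
    rw [Polynomial.map_sub]; rfl
  rw [this, pm_val]
  conv_lhs => rw [← ph_alg (k := k) (k' := k') (a l - a l')]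
  exact L_ph h hk _ _ hm hi

theorem eqKN_pm (h : Pool.Agent.Q269.GR.S_PAS) (hk : ringChar k ≠ 2) (a : Fin n → k[X]) {D : k[X]}
    (hD : D ≠ 0) (w : Ip (D.map (algebraMap k k')) → W0 n F) (T : Ip (D.map (algebraMap k k'))) :
    eqKN (am k' a) (D.map (algebraMap k k')) (fun T => w (pm hD T)) T =
      eqKN (am k' a) (D.map (algebraMap k k')) w (pm hD T) := by
  obtain ⟨hm, hi⟩ := mem_pr T.2
  have hLT : ∀ j : Ip (D.map (algebraMap k k')), L (pm hD j).1 (pm hD T).1 = L j.1 T.1 := fun j =>
    L_ph h hk _ _ hm hi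
  refine eqn_reindexN (pm hD) _ _ _ w T ?_ ?_ ?_
  · intro j
    show cf (L (pm hD j).1 (pm hD T).1) = cf (L j.1 T.1)
    rw [hLT]
  · beta_reduce
    congr 1
    rw [← Equiv.sum_comp (pm hD)]
    refine sum_congr rfl fun j _ => ?_
    by_cases h : j = T
    · rw [if_pos h, if_pos (congrArg (pm hD) h)]
    · rw [if_neg h, if_neg (fun h' => h ((pm hD).injective h')), hLT]
  · exact xb_pm h hk a hD T

end

theorem t_KSN (h1 : Pool.Agent.Q269.GL.S_EIG) (h2 : Pool.Agent.Q269.GR.S_PAS) : S_KSN := by
  intro k k' _ _ _ _ _ hk F _ _ ζ hζ n a D hD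
  set e := Module.finrank k k' with he'
  have he : 0 < e := Module.finrank_pos
  have heF : (e : F) ≠ 0 := cast_F he hζ
  set K0 := KSn F (am k' a) (D.map (algebraMap k k')) with hK0
  set W := K0 ⊓ NmN F k n (D.map (algebraMap k k')) with hWdef
  let Θ : (Ip (D.map (algebraMap k k')) → W0 n F) →ₗ[F] (Ip (D.map (algebraMap k k')) → W0 n F) :=
    LinearMap.funLeft F (W0 n F) (pm hD)
  have hΘ : ∀ w T, Θ w T = w (pm hD T) := fun w T => rfl
  have hΘK : ∀ w ∈ K0, Θ w ∈ K0 := by
    intro w hw
    rw [hK0, mem_KSn] at hw ⊢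
    intro T
    have := eqKN_pm h2 hk a hD w T
    rw [← hw (pm hD T), ← this]
    rfl
  have hit : ∀ (c : ℕ) (w : Ip (D.map (algebraMap k k')) → W0 n F) T, (Θ ^ c) w T = w ((pm hD)^[c] T) := by
    intro c
    induction c with
    | zero => intro w T; rfl
    | succ c ih =>
      intro w T
      rw [pow_succ', Module.End.mul_apply, hΘ, ih, Function.iterate_succ_apply]
  have hW : ∀ w ∈ W, Θ w ∈ W := by
    intro w hw
    rw [hWdef, Submodule.mem_inf] at hw ⊢
    refine ⟨hΘK w hw.1, ?_⟩
    have h3 := (mem_NmN hD w).1 hw.2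
    rw [mem_NmN hD]
    intro T
    have h4 := h3 (pm hD T)
    refine Eq.trans (sum_congr rfl fun c _ => ?_) h4
    show w (pm hD ((pm hD)^[c] T)) = w ((pm hD)^[c] (pm hD T))
    rw [← Function.iterate_succ_apply' (pm hD) c T, Function.iterate_succ_apply]
  let f : Module.End F W := Θ.restrict hW
  have hf : ∀ x : W, (f x).1 = Θ x.1 := fun x => rfl
  have hfc : ∀ (c : ℕ) (x : W), ((f ^ c) x).1 = (Θ ^ c) x.1 := by
    intro c
    induction c with
    | zero => intro x; rfl
    | succ c ih =>
      intro x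
      rw [pow_succ', Module.End.mul_apply, hf, ih, pow_succ', Module.End.mul_apply]
  have hfe : f ^ e = 1 := by
    refine LinearMap.ext fun x => Subtype.ext ?_
    rw [hfc]
    funext T
    rw [hit, he', pm_fin]
    rfl
  rw [h1 F W f e ζ he hζ hfe, sum_filter]
  refine sum_congr rfl fun i hi => ?_
  rw [mem_range] at hi
  by_cases hi0 : 0 < i
  · rw [if_pos hi0]
    have hm : (Module.End.eigenspace (R := F) (M := ↥W) f (ζ ^ i)).map W.subtype = K0 ⊓ EgN k n (ζ ^ i) (D.map (algebraMap k k')) := by
      ext w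
      rw [Submodule.mem_map, Submodule.mem_inf, mem_EgN hD]
      constructor
      · rintro ⟨x, hx, rfl⟩
        rw [Module.End.mem_eigenspace_iff] at hx
        refine ⟨(Submodule.mem_inf.1 x.2).1, fun T => ?_⟩
        have := congrArg Subtype.val hx
        rw [hf] at this
        exact congrFun this T
      · rintro ⟨h3, h4⟩
        have h5 : w ∈ W := by
          rw [hWdef, Submodule.mem_inf]
          refine ⟨h3, ?_⟩
          rw [mem_NmN hD]
          intro T
          rw [sum_congr rfl fun c _ => EgN_iter hD h4 c T, ← sum_smul]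
          have h6 : ζ ^ i ≠ 1 := by
            intro h
            have := orderOf_dvd_of_pow_eq_one h
            rw [hζ] at this
            have := Nat.le_of_dvd hi0 this
            omega
          have h7 : ∑ c ∈ range (Module.finrank k k'), (ζ ^ i) ^ c = 0 := by
            have h8 := geom_sum_mul (ζ ^ i) (Module.finrank k k')
            have h9 : (ζ ^ i) ^ Module.finrank k k' = 1 := by
              rw [← pow_mul, mul_comm, pow_mul, ← he', ← hζ, pow_orderOf_eq_one, one_pow]
            rw [h9, sub_self] at h8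
            exact (mul_eq_zero.1 h8).resolve_right (sub_ne_zero.2 h6)
          rw [h7, zero_smul]
        refine ⟨⟨w, h5⟩, ?_, rfl⟩
        rw [Module.End.mem_eigenspace_iff]
        refine Subtype.ext ?_
        rw [hf]
        funext T
        exact h4 T
    rw [← hm, Submodule.finrank_map_subtype_eq]
  · rw [if_neg hi0]
    have hi1 : i = 0 := by omega
    subst hi1
    have hb : Module.End.eigenspace (R := F) (M := ↥W) f (ζ ^ 0) = ⊥ := by
      rw [eq_bot_iff]
      intro x hx
      rw [Module.End.mem_eigenspace_iff, pow_zero, one_smul] at hx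
      rw [Submodule.mem_bot]
      refine Subtype.ext ?_
      funext T
      have h4 : ∀ T, x.1 (pm hD T) = (1 : F) • x.1 T := by
        intro T
        have := congrArg Subtype.val hx
        rw [hf] at this
        rw [one_smul]
        exact congrFun this T
      have h5 := (mem_NmN hD x.1).1 (Submodule.mem_inf.1 x.2).2 T
      rw [sum_congr rfl fun c _ => EgN_iter hD h4 c T, ← sum_smul] at h5
      simp only [one_pow, sum_const, card_range, nsmul_eq_mul, mul_one] at h5
      exact (smul_eq_zero.1 h5).resolve_left heF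
    rw [hb, finrank_bot]

end Pool.Agent.Q121.SX
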